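import Pool.Agent.N762.KP.Defs
import Pool.Agent.N170.JS.UnirSpecial
import Pool.Agent.R882.CSpec
import Pool.Agent.W619.TW.MDefs

/-!
Kodaira dimensions of rank one sheaves of differential forms on unirational varieties and on
varieties of general type. Parts of the proofs are copied from helper170's
`Pool/Agent/N170/JS/UnirSpecial.lean` and from `Pool/Agent/R882/CSpec.lean`.
-/

set_option autoImplicit false
set_option linter.unusedSectionVars false
set_option linter.overlappingInstances false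

open FF Pool.Agent.W602.GT Pool.Agent.TH710.SP IntermediateField Pool.Agent.N170.JS

namespace Pool.Agent.N762.KP

section

variable {k : Type} [Field k] {w : ℕ} {K : Type} [Field K] [Algebra k K]

/-- no sections of powers of rank one sheaves of `p`-forms, `p > 0` -/
theorem not_sheafGE (hs : ∀ B, NoTensors k K w B) {p : ℕ} (hp : 0 < p)
    {θ : AlternatingMap K (Derivation k K K) K (Fin p)} (hθ : θ ≠ 0) (q : ℕ) :
    ¬ SheafGE w θ q := by
  classical
  rintro ⟨M, hM, f, hreg, hf0, -⟩
  have h1 := hs (M * p) (M * p) (Nat.mul_pos hM hp) le_rfl (powT θ M (f 0)) (by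
    intro P hPd D hD
    rw [powT_apply]
    have h2 : ∀ a : Fin M, P.Reg (f 0 * θ (fun i => D (finProdFinEquiv (a, i))) ^ M) :=
      fun a => hreg P hPd _ (fun i => hD _) 0
    by_cases hz : ∃ a : Fin M, θ (fun i => D (finProdFinEquiv (a, i))) = 0
    · obtain ⟨a, ha⟩ := hz
      rw [Finset.prod_eq_zero (Finset.mem_univ a) ha, mul_zero]
      exact Or.inl rfl
    · push Not at hz
      have hpr : ∏ a : Fin M, θ (fun i => D (finProdFinEquiv (a, i))) ≠ 0 :=
        Finset.prod_ne_zero_iff.2 fun a _ => hz a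
      right
      rw [P.ord_mul hf0 hpr, ord_prod' P _ _ fun a _ => hz a]
      have h3 : ∀ a : Fin M, 0 ≤ P.ord (f 0) +
          M * P.ord (θ (fun i => D (finProdFinEquiv (a, i)))) := by
        intro a
        rcases h2 a with h4 | h4
        · exact absurd h4 (mul_ne_zero hf0 (pow_ne_zero _ (hz a)))
        · rwa [P.ord_mul hf0 (pow_ne_zero _ (hz a)), P.ord_pow] at h4
      have h5 : (0 : ℤ) ≤ ∑ a : Fin M, (P.ord (f 0) +
          M * P.ord (θ (fun i => D (finProdFinEquiv (a, i))))) :=
        Finset.sum_nonneg fun a _ => h3 a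
      rw [Finset.sum_add_distrib, ← Finset.mul_sum, Finset.sum_const, Finset.card_univ,
        Fintype.card_fin, nsmul_eq_mul, ← mul_add] at h5
      exact nonneg_of_mul_nonneg_right h5 (by exact_mod_cast hM))
  apply hθ
  ext D
  have h2 := congrArg (fun ω => ω (fun j => D (finProdFinEquiv.symm j).2)) h1
  simp only [powT_apply, Equiv.symm_apply_apply, Finset.prod_const, Finset.card_univ,
    Fintype.card_fin, zero_apply] at h2
  simpa using (eq_zero_of_pow_eq_zero ((mul_eq_zero.1 h2).resolve_left hf0))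

/-- the Kodaira dimension is at most the dimension -/
theorem le_of_sheafGE (hw : Algebra.trdeg k K = w) {p : ℕ}
    {θ : AlternatingMap K (Derivation k K K) K (Fin p)} {q : ℕ} (h : SheafGE w θ q) : q ≤ w := by
  obtain ⟨N, hN, f, -, -, hind⟩ := h
  have h1 := hind.cardinalMk_le_trdeg
  rw [Cardinal.mk_fin, hw] at h1
  exact_mod_cast h1

end

/-- tensor differentials vanish on unirational varieties -/
theorem noTensors_of_unirational {L : Type} [Field L] [Algebra ℂ L] {w : ℕ}
    (hL : Algebra.trdeg ℂ L = w) (h : Pool.Agent.W619.TW.IsUnirational ℂ L w) (B : ℕ) :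
    NoTensors ℂ L w B := by
  obtain ⟨φ⟩ := h
  classical
  let K := FractionRing (MvPolynomial (Fin w) ℂ)
  let _ : Algebra L K := φ.toRingHom.toAlgebra
  have hst : IsScalarTower ℂ L K := IsScalarTower.of_algebraMap_eq fun c => (φ.commutes c).symm
  let σ : Fin w → K := fun l => algebraMap (MvPolynomial (Fin w) ℂ) K (MvPolynomial.X l)
  have hind : AlgebraicIndependent ℂ σ :=
    (MvPolynomial.algebraicIndependent_X (Fin w) ℂ).map'
      (f := IsScalarTower.toAlgHom ℂ (MvPolynomial (Fin w) ℂ) K)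
      (IsFractionRing.injective (MvPolynomial (Fin w) ℂ) K)
  have htop : IntermediateField.adjoin ℂ (Set.range σ) = ⊤ := by
    rw [eq_top_iff]
    intro z _
    have h1 : ∀ P : MvPolynomial (Fin w) ℂ, algebraMap (MvPolynomial (Fin w) ℂ) K P ∈
        IntermediateField.adjoin ℂ (Set.range σ) := by
      intro P
      induction P using MvPolynomial.induction_on with
      | C a =>
        exact (IntermediateField.adjoin ℂ (Set.range σ)).algebraMap_mem a
      | add p q hp hq =>
        rw [map_add]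
        exact add_mem hp hq
      | mul_X p i hp =>
        rw [map_mul]
        exact mul_mem hp (IntermediateField.subset_adjoin ℂ _ ⟨i, rfl⟩)
    obtain ⟨a, b, -, rfl⟩ := IsFractionRing.div_surjective (A := MvPolynomial (Fin w) ℂ) z
    exact div_mem (h1 a) (h1 b)
  have hbasis : IsTranscendenceBasis ℂ σ := by
    rw [hind.isTranscendenceBasis_iff_isAlgebraic]
    apply alg_adjoin
    rw [htop]
    exact ⟨fun x => isAlgebraic_algebraMap (A := K) (⟨x, trivial⟩ : (⊤ : IntermediateField ℂ K))⟩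
  have hK : Algebra.trdeg ℂ K = w := by
    have h1 := hbasis.cardinalMk_eq_trdeg
    rw [Cardinal.mk_fin] at h1
    exact h1.symm
  exact noTensors_down (K := K) hL hK
    (fun y hy => fd_sub (K := K) hL hK (Set.finite_range σ) htop y hy)
    (noTensors_of_rational hK ⟨Fin w, inferInstance, σ, hind, htop⟩ B)

/-- a variety of general type: the canonical sheaf has maximal Kodaira dimension -/
theorem sheafGE_of_gt {n : ℕ} {L : Type} [Field L] [Algebra ℂ L] (h : GeneralType ℂ L n) :
    ∃ θ : AlternatingMap L (Derivation ℂ L L) L (Fin n), θ ≠ 0 ∧ SheafGE n θ n := by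
  classical
  obtain ⟨hL, N, hN, ω, hω, hreg, D0, h0, hind⟩ := h
  obtain ⟨y, E, hy, hE⟩ := Pool.Agent.Y172.exists_crd (k := ℂ) (K := L) hL
  let g : Derivation ℂ L L →ₗ[L] (Fin n → L) :=
    { toFun := fun D j => D (y j)
      map_add' := fun _ _ => rfl
      map_smul' := fun _ _ => rfl }
  let θ : AlternatingMap L (Derivation ℂ L L) L (Fin n) :=
    (Matrix.detRowAlternating (R := L) (n := Fin n)).compLinearMap g
  have hθ : ∀ D : Fin n → Derivation ℂ L L, θ D = (Matrix.of fun i j => D i (y j)).det :=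
    fun D => rfl
  have hval : ∀ j (D : Fin n → Derivation ℂ L L), ω j E * θ D ^ N = ω j D := by
    intro j D
    rw [Pool.Agent.Y172.pluri_coord hy hE (hω j) D, hθ, mul_comm]
  have hE0 : ω 0 E ≠ 0 := by
    intro h1
    apply h0
    rw [← hval 0 D0, h1, zero_mul]
  have hθ0 : θ D0 ≠ 0 := by
    intro h1
    apply h0
    rw [← hval 0 D0, h1, zero_pow hN.ne', mul_zero]
  refine ⟨θ, fun h1 => hθ0 (by rw [h1]; rfl), N, hN, fun j => ω j E, ?_, hE0, ?_⟩
  · intro P hP D hD j
    rw [hval]
    exact hreg P hP j D hD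
  · have h1 : (fun i : Fin n => ω i.succ E / ω 0 E) =
        fun i : Fin n => ω i.succ D0 / ω 0 D0 := by
      funext i
      rw [← hval _ D0, ← hval 0 D0, mul_div_mul_right _ _ (pow_ne_zero _ hθ0)]
    change AlgebraicIndependent ℂ (fun i : Fin n => ω i.succ E / ω 0 E)
    rw [h1]
    exact hind

variable {L : Type} [Field L] [Algebra ℂ L] {n : ℕ}

theorem sSup_eq_of {S : Set (WithBot ℕ)} {n : ℕ} (h1 : (n : WithBot ℕ) ∈ S)
    (h2 : ∀ x ∈ S, x ≤ n) : sSup S = n :=
  IsGreatest.csSup_eq ⟨h1, h2⟩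

theorem sSup_bot_of {S : Set (WithBot ℕ)} (h : ∀ x, x ∉ S) : sSup S = ⊥ := by
  have h1 : S = ∅ := Set.eq_empty_iff_forall_notMem.2 h
  rw [h1]
  exact WithBot.sSup_empty

/-- unirational varieties -/
theorem unirational_case (hn : 1 ≤ n) (hL : Algebra.trdeg ℂ L = n)
    (h : Pool.Agent.W619.TW.IsUnirational ℂ L n) :
    kodaira ℂ L n = ⊥ ∧ augmented ℂ L n = ⊥ := by
  have hs := noTensors_of_unirational hL h
  refine ⟨sSup_bot_of ?_, sSup_bot_of ?_⟩
  · rintro x ⟨θ, hθ, q, -, hq⟩
    exact not_sheafGE hs (by omega) hθ q hq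
  · rintro x ⟨p, hp, θ, hθ, q, -, hq⟩
    exact not_sheafGE hs hp hθ q hq

/-- varieties of general type -/
theorem gt_case (hn : 1 ≤ n) (h : GeneralType ℂ L n) :
    kodaira ℂ L n = n ∧ augmented ℂ L n = n := by
  have hL := h.1
  obtain ⟨θ, hθ, h1⟩ := sheafGE_of_gt h
  refine ⟨sSup_eq_of ⟨θ, hθ, n, rfl, h1⟩ ?_, sSup_eq_of ⟨n, by omega, θ, hθ, n, rfl, h1⟩ ?_⟩
  · rintro x ⟨θ, hθ, q, rfl, hq⟩
    exact_mod_cast le_of_sheafGE hL hq
  · rintro x ⟨p, hp, θ, hθ, q, rfl, hq⟩
    exact_mod_cast le_of_sheafGE hL hq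

end Pool.Agent.N762.KP
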