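import Pool.Agent.W602.GT.SpecDefs

/-!
Kodaira dimensions of rank one sheaves of differential forms, in the language of function fields.
-/

set_option autoImplicit false

open FF Pool.Agent.W602.GT

namespace Pool.Agent.N762.KP

variable {k K : Type} [Field k] [Field K] [Algebra k K]

/-- Let `θ` be a nonzero rational `p`-form on the varieties of dimension `w` with function field `K`.
The saturated rank one subsheaf `ℒ` of `Ω^p` generated by `θ` has Kodaira dimension at least `q`:
for some `N > 0` there are sections `f j * θ ^ N` of `ℒ ^ N`, regular at all prime divisors of all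
models, such that the ratios `f j / f 0` are `q` algebraically independent functions. -/
def SheafGE (w : ℕ) {p : ℕ} (θ : AlternatingMap K (Derivation k K K) K (Fin p)) (q : ℕ) : Prop :=
  ∃ N : ℕ, 0 < N ∧ ∃ f : Fin (q + 1) → K,
    (∀ P : Place k K, Divisorial w P → ∀ D : Fin p → Derivation k K K, (∀ i, DerReg P (D i)) →
      ∀ j, P.Reg (f j * θ D ^ N)) ∧
    f 0 ≠ 0 ∧ AlgebraicIndependent k (fun i : Fin q => f i.succ / f 0)

variable (k K)

/-- The Kodaira dimension `κ(X)`, `-∞` (that is `⊥`) or a natural number, of the smooth projective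
varieties `X` of dimension `w` with function field `K`: the Kodaira dimension of the rank one sheaf
`K_X = Ω^w`, generated by any nonzero rational `w`-form. -/
noncomputable def kodaira (w : ℕ) : WithBot ℕ :=
  sSup {x | ∃ θ : AlternatingMap K (Derivation k K K) K (Fin w), θ ≠ 0 ∧
    ∃ q : ℕ, x = q ∧ SheafGE w θ q}

/-- The augmented Kodaira dimension `κ_{++}(X)`: the largest Kodaira dimension of a rank one subsheaf
of `Ω^p` for some `p > 0`. -/
noncomputable def augmented (w : ℕ) : WithBot ℕ :=
  sSup {x | ∃ p : ℕ, 0 < p ∧ ∃ θ : AlternatingMap K (Derivation k K K) K (Fin p), θ ≠ 0 ∧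
    ∃ q : ℕ, x = q ∧ SheafGE w θ q}

end Pool.Agent.N762.KP
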