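import Pool.Agent.N762.KP.Aug
import Pool.Agent.TH466.QG.Low
import Pool.Agent.W602.GT.KPsefS

/-!
The Kodaira dimension is at least zero only if the canonical divisor is pseudo-effective.
-/

set_option autoImplicit false
set_option linter.unusedSectionVars false

open FF Pool.Agent.W602.GT

namespace Pool.Agent.N762.KP

variable {K : Type} [Field K] [Algebra ℂ K] {w : ℕ}

theorem alt_matrix (θ : AlternatingMap K (Derivation ℂ K K) K (Fin w))
    (A : Matrix (Fin w) (Fin w) K) (D : Fin w → Derivation ℂ K K) :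
    θ (fun i => ∑ j, A i j • D j) = A.det * θ D := by
  classical
  let g : (Fin w → K) →ₗ[K] Derivation ℂ K K := Fintype.linearCombination K D
  have h1 : ∀ v : Fin w → K, g v = ∑ j, v j • D j := fun v => rfl
  have h2 := (θ.compLinearMap g).eq_smul_basis_det (Pi.basisFun K (Fin w))
  have h3 := congrArg (fun η : AlternatingMap K (Fin w → K) K (Fin w) => η (fun i => A i)) h2
  have h4 : (θ.compLinearMap g) (fun i => A i) = θ (fun i => ∑ j, A i j • D j) := rfl
  have h5 : (θ.compLinearMap g) (Pi.basisFun K (Fin w)) = θ D := by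
    change θ (fun i => g (Pi.basisFun K (Fin w) i)) = θ D
    congr 1
    funext i
    rw [h1, Finset.sum_eq_single i]
    · simp
    · intro j _ hj
      simp [Pi.basisFun_apply, Pi.single_eq_of_ne hj]
    · intro h
      exact absurd (Finset.mem_univ i) h
  have h6 : (Pi.basisFun K (Fin w)).det (fun i => A i) = A.det := by
    rw [Pi.basisFun_det_apply]
    rfl
  rw [← h4]
  refine h3.trans ?_
  change (θ.compLinearMap g) (Pi.basisFun K (Fin w)) • (Pi.basisFun K (Fin w)).det (fun i => A i) = _
  rw [h5, h6, smul_eq_mul, mul_comm]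

theorem psef_of_sheafGE {θ : AlternatingMap K (Derivation ℂ K K) K (Fin w)} (hθ : θ ≠ 0) {q : ℕ}
    (h : SheafGE w θ q) : Psef ℂ K w (fun _ => False) := by
  obtain ⟨N, hN, f, hreg, hf0, -⟩ := h
  obtain ⟨D, hD⟩ : ∃ D, θ D ≠ 0 := by
    by_contra hcon
    push Not at hcon
    exact hθ (AlternatingMap.ext hcon)
  refine psef_of_kodGe ⟨N, hN, fun _ D => f 0 * θ D ^ N, fun _ => ⟨?_, ?_, ?_⟩, D,
    mul_ne_zero hf0 (pow_ne_zero _ hD), ?_⟩
  · intro A D
    simp only
    rw [alt_matrix, mul_pow]
    ring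
  · intro P hP D hDl
    exact hreg P hP D (fun i => Pool.Agent.TH466.QG.derReg_of_log (hDl i)) 0
  · intro P hP _ D hDr
    exact hreg P hP D hDr 0
  · rw [algebraicIndependent_empty_type_iff]
    exact (algebraMap ℂ K).injective

/-- if the Kodaira dimension is not `-∞`, the canonical divisor is pseudo-effective -/
theorem psef_of_kodaira (h : kodaira ℂ K w ≠ ⊥) : Psef ℂ K w (fun _ => False) := by
  by_contra hcon
  apply h
  refine sSup_bot_of ?_
  rintro x ⟨θ, hθ, q, -, hq⟩
  exact hcon (psef_of_sheafGE hθ hq)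

end Pool.Agent.N762.KP
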